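import Pool.Agent.helper26.EC.SpecS

/-! Row ec:CPB (MP_5628fe). -/

set_option autoImplicit false

namespace Pool.Agent.EC

open Finset ArithmeticFunction
open Pool.Agent.CHS (PB)
open Pool.Agent.RLS (SS Dat Good)

theorem CPB (h1 : GDB_stmt) (h2 : Pool.Agent.RLS.CP_stmt) (h3 : Pool.Agent.RLS.GI_stmt) : CPB_stmt := by
  intro u A F f hu hDat eps heps
  have hu0 : (0 : ℝ) < u := by linarith
  have hB : 0 ≤ Real.log (2 * u) := Real.log_nonneg (by linarith)
  obtain ⟨C, hC, hCP⟩ := h2 u A F f hu hDat (Real.log (2 * u)) hB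
  obtain ⟨M, hM, hMG⟩ := h1
  refine ⟨max 2 (max (2 * u * M) (u * (C * M) / eps)), le_max_left _ _, ?_⟩
  intro h Y L hh hhY hL
  have hw2 : 2 ≤ h := (le_max_left _ _).trans hh
  have hom : 0 < h := by linarith
  have hy : 0 < Y := by linarith
  have hlw2 : 2 * u * M ≤ h := ((le_max_left _ _).trans (le_max_right _ _)).trans hh
  have hlw3 : u * (C * M) / eps ≤ h := ((le_max_right _ _).trans (le_max_right _ _)).trans hh
  have het : 0 ≤ M / h := by positivity
  have hgood := hMG h Y hw2 hhY
  -- the main facts for `Y ≤ L`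
  have key : ∀ _ : Y ≤ L, ∑ p ∈ PB h Y, gg p ≤ Real.log (2 * u) ∧ C * (M / h) ≤ h / Y * eps := by
    intro hyL
    have hyu : Y ≤ u * h := hyL.trans hL
    refine ⟨?_, ?_⟩
    · have hs := (h3 _ _ _ _ _ hom hhY hgood).2.2.1
      have h4 : M / h ≤ h / (2 * Y) := by
        rw [div_le_div_iff₀ hom (by positivity)]
        have h5 : M * (2 * Y) ≤ M * (2 * (u * h)) := by
          apply mul_le_mul_of_nonneg_left _ hM.le
          linarith
        have h6 : 2 * u * M * h ≤ h * h := mul_le_mul_of_nonneg_right hlw2 hom.le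
        nlinarith
      refine (hs h4).trans ?_
      apply Real.log_le_log
      · positivity
      · rw [div_le_iff₀ hom]
        linarith
    · have h7 : 1 / u ≤ h / Y := by
        rw [div_le_div_iff₀ hu0 hy]
        linarith
      have h8 : C * (M / h) ≤ 1 / u * eps := by
        rw [← mul_div_assoc, one_div, inv_mul_eq_div, div_le_div_iff₀ hom hu0]
        rw [div_le_iff₀ heps] at hlw3
        linarith
      exact h8.trans (mul_le_mul_of_nonneg_right h7 heps.le)
  constructor
  · intro hyL
    obtain ⟨hg, he⟩ := key hyL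
    have h9 := (hCP _ _ _ _ _ _ hom het hhY hL hgood hg).1 hyL
    refine h9.trans ?_
    rw [mul_add]
    linarith
  · intro h2y
    obtain ⟨hg, he⟩ := key (by linarith)
    have h9 := (hCP _ _ _ _ _ _ hom het hhY hL hgood hg).2 h2y
    refine le_trans ?_ h9
    rw [mul_sub]
    linarith

end Pool.Agent.EC
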